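import Pool.Agent.W78.GR.Basic

/-!
Project GR (helper78), task GR-18: MULT.
-/

set_option autoImplicit false

namespace Pool.Agent.W29.GR

open Finset Filter
open Pool.Agent.H376R2.MR Pool.Agent.W78.GR

variable {t c : ℤ} {η : (Qd t c)ˣ}

/-- the ideal generated by `star v`, `dt v u = 1` -/
theorem star_dvd_iff (hD : 4 * c < t ^ 2) {v u : Qd t c} (hv : tp v) (h : dt v u = 1)
    (z : Qd t c) : star v ∣ z ↔ ((nm v : ℕ) : ℤ) ∣ z.re - ip v u * z.im := by
  have hw : star v * u = (⟨ip v u, 1⟩ : Qd t c) := by rw [star_mul_eq, h]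
  have hz : z = ((z.re - ip v u * z.im : ℤ) : Qd t c) + (z.im : Qd t c) * (⟨ip v u, 1⟩ : Qd t c) := by
    apply QuadraticAlgebra.ext
    · simp only [QuadraticAlgebra.re_add, QuadraticAlgebra.re_mul, QuadraticAlgebra.re_intCast,
        QuadraticAlgebra.im_intCast, Int.cast_id]
      ring
    · simp only [QuadraticAlgebra.im_add, QuadraticAlgebra.im_mul, QuadraticAlgebra.re_intCast,
        QuadraticAlgebra.im_intCast, Int.cast_id]
      ring
  constructor
  · intro hd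
    have h1 : star v ∣ ((z.re - ip v u * z.im : ℤ) : Qd t c) := by
      have h2 : star v ∣ (z.im : Qd t c) * (⟨ip v u, 1⟩ : Qd t c) := by
        rw [← hw]
        exact (Dvd.intro _ rfl).mul_left _
      rw [hz] at hd
      exact (dvd_add_left h2).1 hd
    obtain ⟨q, hq⟩ := h1
    set m : ℤ := z.re - ip v u * z.im with hm
    have h3 : (m : Qd t c) * v = ((nm v : ℕ) : Qd t c) * q := by
      rw [hq, ← star_mul_self_tp hD hv]
      ring
    have h4 : ((nm v : ℕ) : Qd t c) ∣ (m : Qd t c) * v := ⟨q, h3⟩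
    rw [natCast_dvd] at h4
    simp only [QuadraticAlgebra.re_mul, QuadraticAlgebra.im_mul, QuadraticAlgebra.re_intCast,
      QuadraticAlgebra.im_intCast, Int.cast_id] at h4
    obtain ⟨h5, h6⟩ := h4
    have h7 : m = u.im * (m * v.re) - u.re * (m * v.im) := by
      have : v.re * u.im - v.im * u.re = 1 := h
      linear_combination (-m) * this
    rw [h7]
    refine dvd_sub ?_ ?_
    · refine Dvd.dvd.mul_left ?_ _
      have e : m * v.re = m * v.re + -c * (0 : ℤ) * v.im := by ring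
      rw [e]
      exact h5
    · refine Dvd.dvd.mul_left ?_ _
      have e : m * v.im = m * v.im + 0 * v.re + t * 0 * v.im := by ring
      rw [e]
      exact h6
  · rintro ⟨k, hk⟩
    rw [hz, hk]
    refine dvd_add ?_ ?_
    · rw [Int.cast_mul, Int.cast_natCast, ← star_mul_self_tp hD hv]
      exact ⟨v * k, by ring⟩
    · rw [← hw]
      exact (Dvd.intro _ rfl).mul_left _

/-- totally positive elements of norm one with angle less than `2π` -/
theorem unit_box (U : Un t c η) {w : Qd t c} (hw : tp w) (h1 : nm w = 1)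
    (h2 : ang η w < 2 * Real.pi) (h3 : -(2 * Real.pi) < ang η w) :
    |(w.re : ℝ)| ≤ (|(t : ℝ)| + 1) * s1 (η : Qd t c) ∧
    |(w.im : ℝ)| ≤ (|(t : ℝ)| + 1) * s1 (η : Qd t c) := by
  have hR := U.rg_pos
  have hpi := Real.pi_pos
  have he := U.s1_gt
  have hp1 := hw.1
  have hp2 := hw.2
  obtain ⟨a1, a2⟩ := U.s1_polar hw
  rw [h1, Nat.cast_one, Real.sqrt_one, one_mul] at a1 a2
  have hexp : Real.exp (rg η) = s1 (η : Qd t c) := by
    unfold rg
    rw [Real.exp_log (by linarith)]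
  have b1 : s1 w ≤ s1 (η : Qd t c) := by
    rw [a1, ← hexp, Real.exp_le_exp]
    calc rg η / (2 * Real.pi) * ang η w ≤ rg η / (2 * Real.pi) * (2 * Real.pi) :=
          mul_le_mul_of_nonneg_left h2.le (by positivity)
      _ = rg η := by field_simp
  have b2 : s2 w ≤ s1 (η : Qd t c) := by
    rw [a2, ← hexp, Real.exp_le_exp]
    calc -(rg η / (2 * Real.pi) * ang η w) = rg η / (2 * Real.pi) * (-ang η w) := by ring
      _ ≤ rg η / (2 * Real.pi) * (2 * Real.pi) :=
          mul_le_mul_of_nonneg_left (by linarith) (by positivity)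
      _ = rg η := by field_simp
  have h5 := s1_sub_s2 w
  have h6 := s1_add_s2 w
  have hq : 2 ≤ Real.sqrt ((t : ℝ) ^ 2 - 4 * c) := by
    apply Real.le_sqrt_of_sq_le
    have := U.five_le
    linarith
  have hy1 : |(w.im : ℝ)| ≤ s1 (η : Qd t c) := by
    have h7 : |(w.im : ℝ)| * Real.sqrt ((t : ℝ) ^ 2 - 4 * c) ≤ s1 (η : Qd t c) := by
      rw [← abs_of_nonneg (Real.sqrt_nonneg ((t : ℝ) ^ 2 - 4 * c)), ← abs_mul, ← h5, abs_le]
      constructor <;> linarith
    nlinarith [abs_nonneg (w.im : ℝ)]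
  have ht := abs_nonneg (t : ℝ)
  constructor
  · have h7 : (w.re : ℝ) = (s1 w + s2 w) / 2 - t * w.im / 2 := by linarith
    rw [h7]
    have h8 : |(s1 w + s2 w) / 2 - t * w.im / 2| ≤ |(s1 w + s2 w) / 2| + |(t : ℝ) * w.im / 2| :=
      abs_sub _ _
    have h9 : |(s1 w + s2 w) / 2| ≤ s1 (η : Qd t c) := by
      rw [abs_of_pos (by linarith)]
      linarith
    have h10 : |(t : ℝ) * w.im / 2| ≤ |(t : ℝ)| * s1 (η : Qd t c) := by
      rw [abs_div, abs_mul, abs_of_pos (by norm_num : (0 : ℝ) < 2)]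
      have h11 : |(t : ℝ)| * |(w.im : ℝ)| ≤ |(t : ℝ)| * s1 (η : Qd t c) :=
        mul_le_mul_of_nonneg_left hy1 ht
      have h12 : 0 ≤ |(t : ℝ)| * |(w.im : ℝ)| := by positivity
      linarith
    linarith
  · have h11 : 0 ≤ |(t : ℝ)| * s1 (η : Qd t c) := mul_nonneg ht (by linarith)
    linarith

/-- a finite set containing the units above -/
noncomputable def ubox (η : (Qd t c)ˣ) : Finset (Qd t c) :=
  open scoped Classical in
  ((Icc (-((⌈(|(t : ℝ)| + 1) * s1 (η : Qd t c)⌉₊ : ℕ) : ℤ)) (⌈(|(t : ℝ)| + 1) * s1 (η : Qd t c)⌉₊ : ℕ)) ×ˢ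
    (Icc (-((⌈(|(t : ℝ)| + 1) * s1 (η : Qd t c)⌉₊ : ℕ) : ℤ))
      (⌈(|(t : ℝ)| + 1) * s1 (η : Qd t c)⌉₊ : ℕ))).image (fun p => (⟨p.1, p.2⟩ : Qd t c))

theorem mem_ubox {w : Qd t c} (h : |(w.re : ℝ)| ≤ (|(t : ℝ)| + 1) * s1 (η : Qd t c) ∧
    |(w.im : ℝ)| ≤ (|(t : ℝ)| + 1) * s1 (η : Qd t c)) : w ∈ ubox η := by
  classical
  unfold ubox
  rw [mem_image]
  have hB : (|(t : ℝ)| + 1) * s1 (η : Qd t c) ≤
    ((⌈(|(t : ℝ)| + 1) * s1 (η : Qd t c)⌉₊ : ℕ) : ℝ) := Nat.le_ceil _
  refine ⟨(w.re, w.im), ?_, rfl⟩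
  rw [mem_product, Finset.mem_Icc, Finset.mem_Icc]
  have hre := abs_le.1 (h.1.trans hB)
  have him := abs_le.1 (h.2.trans hB)
  refine ⟨⟨?_, ?_⟩, ?_, ?_⟩
  · exact_mod_cast hre.1
  · exact_mod_cast hre.2
  · exact_mod_cast him.1
  · exact_mod_cast him.2

theorem tp_of_mul (U : Un t c η) {v w : Qd t c} (hv : tp v) (h : tp (v * w)) : tp w := by
  obtain ⟨h4, h5⟩ := h
  rw [s1_mul U.disc] at h4
  rw [s2_mul U.disc] at h5
  exact ⟨(mul_pos_iff_of_pos_left hv.1).1 h4, (mul_pos_iff_of_pos_left hv.2).1 h5⟩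

theorem mult (U : Un t c η) : S_MULT t c η := by
  classical
  refine ⟨(ubox η).card, ?_⟩
  intro n d S hS
  rcases S.eq_empty_or_nonempty with h | ⟨e₀, he₀⟩
  · rw [h]; simp
  have hne : ∀ e ∈ S, e.1 ≠ 0 := fun e he => tp_ne_zero (hS e he).1.1
  have hdpos : 0 < d := by
    rw [← (hS e₀ he₀).2.2.2]
    exact nm_pos U.disc (hS e₀ he₀).1.1
  have hmul : ∀ e ∈ S, star e.1 * e.2 = (⟨n, 1⟩ : Qd t c) := by
    intro e he
    rw [star_mul_eq, (hS e he).2.1, (hS e he).2.2.1]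
  have hinj : ∀ e ∈ S, ∀ f ∈ S, e.1 = f.1 → e = f := by
    intro e he f hf hef
    refine Prod.ext hef ?_
    have h1 := hmul e he
    rw [← hmul f hf, hef] at h1
    refine mul_cancel U.nsq ?_ h1
    intro h0
    apply hne f hf
    have := congrArg star h0
    simpa using this
  have hsub : S.image (fun e => e.1) ⊆ (ubox η).image (fun w => e₀.1 * w) := by
    intro v hv
    rw [mem_image] at hv
    obtain ⟨e, he, rfl⟩ := hv
    have h1 : star e₀.1 ∣ star e.1 := by
      rw [star_dvd_iff U.disc (hS e₀ he₀).1.1 (hS e₀ he₀).2.1, (hS e₀ he₀).2.2.1,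
        (hS e₀ he₀).2.2.2]
      have h2 := (star_dvd_iff U.disc (hS e he).1.1 (hS e he).2.1 (star e.1)).1 dvd_rfl
      rw [(hS e he).2.2.1, (hS e he).2.2.2] at h2
      exact h2
    obtain ⟨u, hu⟩ := h1
    have h3 : nm u = 1 := by
      have h4 := congrArg nm hu
      rw [nm_mul, nm_star, nm_star, (hS e he).2.2.2, (hS e₀ he₀).2.2.2] at h4
      have h5 : d * 1 = d * nm u := by rw [mul_one]; exact h4
      exact (Nat.eq_of_mul_eq_mul_left hdpos h5).symm
    have h6 := congrArg star hu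
    rw [star_star, star_mul', star_star] at h6
    rw [mem_image]
    refine ⟨star u, ?_, h6.symm⟩
    have h7 : tp (star u) := by
      apply tp_of_mul U (hS e₀ he₀).1.1
      rw [← h6]
      exact (hS e he).1.1
    have h8 : ang η e.1 = ang η e₀.1 + ang η (star u) := by
      rw [h6, ang_mul U.disc (hS e₀ he₀).1.1 h7]
    have h9 := (hS e he).1.2
    have h10 := (hS e₀ he₀).1.2
    exact mem_ubox (unit_box U h7 (by rw [nm_star]; exact h3) (by linarith) (by linarith))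
  have h1 : (S.image (fun e => e.1)).card = S.card :=
    Finset.card_image_of_injOn fun e he f hf hef => hinj e he f hf hef
  rw [← h1]
  exact (Finset.card_le_card hsub).trans Finset.card_image_le

end Pool.Agent.W29.GR
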