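import Pool.Agent.W29.GR.Typ2

/-!
Project GR (helper78), task GR-18: a typical norm has at most `(1+ε) log log X` prime factors.
-/

set_option autoImplicit false

namespace Pool.Agent.W29.GR

open Finset Filter Topology
open Pool.Agent.H376R2.MR Pool.Agent.W78.GR

variable {t c : ℤ} {η : (Qd t c)ˣ}

/-- few large prime factors -/
theorem large_card {m y k : ℕ} (hm : m ≠ 0) (h : m < (y + 1) ^ k) :
    (m.primeFactors.filter (fun p => y < p)).card < k := by
  by_contra hcon
  push Not at hcon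
  have h1 : (y + 1) ^ (m.primeFactors.filter (fun p => y < p)).card ≤
      ∏ p ∈ m.primeFactors.filter (fun p => y < p), p := by
    apply Finset.pow_card_le_prod
    intro p hp
    exact (mem_filter.1 hp).2
  have h2 : ∏ p ∈ m.primeFactors.filter (fun p => y < p), p ∣ m :=
    (Finset.prod_dvd_prod_of_subset _ _ _ (filter_subset _ _)).trans (Nat.prod_primeFactors_dvd m)
  have h3 := Nat.le_of_dvd (Nat.pos_of_ne_zero hm) h2
  have h4 : (y + 1) ^ k ≤ (y + 1) ^ (m.primeFactors.filter (fun p => y < p)).card :=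
    Nat.pow_le_pow_right (by omega) hcon
  omega

/-- a prime factor of the norm of a primitive element gives a root -/
theorem root_of {z : Qd t c} (hz : prim z) {p : ℕ} (hp : p.Prime)
    (h : p ∣ nm z) : ∃ r : ℤ, 0 ≤ r ∧ r < p ∧ (p : ℤ) ∣ r ^ 2 - t * r + c ∧ lat p r z := by
  have hpp := Nat.prime_iff_prime_int.1 hp
  have h1 : (p : ℤ) ∣ z.re ^ 2 + t * z.re * z.im + c * z.im ^ 2 := by
    exact Int.natCast_dvd.2 h
  have h2 : ¬ (p : ℤ) ∣ z.im := by
    intro h3
    have h4 : (p : ℤ) ∣ z.re ^ 2 := by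
      have : z.re ^ 2 = z.re ^ 2 + t * z.re * z.im + c * z.im ^ 2 -
          z.im * (t * z.re + c * z.im) := by ring
      rw [this]
      exact dvd_sub h1 (dvd_mul_of_dvd_left h3 _)
    have h5 : (p : ℤ) ∣ z.re := hpp.dvd_of_dvd_pow h4
    have h6 : (p : ℤ) ∣ (Int.gcd z.re z.im : ℤ) := Int.dvd_coe_gcd h5 h3
    unfold prim at hz
    rw [hz] at h6
    have h7 : p ∣ 1 := by exact_mod_cast h6
    exact hp.one_lt.ne' (Nat.dvd_one.1 h7)
  have hcop : IsCoprime (p : ℤ) z.im := (Prime.coprime_iff_not_dvd hpp).2 h2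
  obtain ⟨a, b, hab⟩ := hcop
  -- b * im ≡ 1
  set r : ℤ := (-(z.re * b)) % (p : ℤ) with hr
  have hp0 : (0 : ℤ) < p := by exact_mod_cast hp.pos
  have h3 : (p : ℤ) ∣ r - (-(z.re * b)) := by
    have := Int.emod_emod_of_dvd (-(z.re * b)) (dvd_refl (p : ℤ))
    rw [hr]
    exact (Int.emod_emod_of_dvd (-(z.re * b)) (dvd_refl (p : ℤ))) |> fun h =>
      Int.ModEq.dvd (Int.ModEq.symm h)
  have hl : lat p r z := by
    unfold lat
    have e : z.re + r * z.im = (r - (-(z.re * b))) * z.im + z.re * (p * a) := by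
      have : z.re * (p * a) = z.re * (1 - b * z.im) := by rw [← hab]; ring
      rw [this]; ring
    rw [e]
    exact dvd_add (dvd_mul_of_dvd_left h3 _) ⟨z.re * a, by ring⟩
  refine ⟨r, Int.emod_nonneg _ hp0.ne', Int.emod_lt_of_pos _ hp0, ?_, hl⟩
  have h4 : (p : ℤ) ∣ z.im ^ 2 * (r ^ 2 - t * r + c) := by
    unfold lat at hl
    have e : z.im ^ 2 * (r ^ 2 - t * r + c) =
        (z.re + r * z.im) * (r * z.im - z.re - t * z.im) +
        (z.re ^ 2 + t * z.re * z.im + c * z.im ^ 2) := by ring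
    rw [e]
    exact dvd_add (dvd_mul_of_dvd_left hl _) h1
  rcases hpp.dvd_or_dvd h4 with h5 | h5
  · exact absurd (hpp.dvd_of_dvd_pow h5) h2
  · exact h5

/-- number of exceptional primes -/
def K0 (t c : ℤ) : ℕ := 2 + (t ^ 2 - 4 * c).natAbs.primeFactors.card

theorem omega_le (U : Un t c η) {z : Qd t c} (hz : prim z) (y : ℕ)
    (h : nm z < (y + 1) ^ 9) :
    (nm z).primeFactors.card ≤ ((TT t c y).filter (fun e => lat e.1 e.2 z)).card + K0 t c + 9 := by
  have hsub : (nm z).primeFactors ⊆ (({2, 3} ∪ (t ^ 2 - 4 * c).natAbs.primeFactors) ∪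
      ((TT t c y).filter (fun e => lat e.1 e.2 z)).image Prod.fst) ∪
      (nm z).primeFactors.filter (fun p => y < p) := by
    intro p hp
    have hp' := hp
    rw [Nat.mem_primeFactors] at hp
    obtain ⟨hpp, hpd, hp0⟩ := hp
    rw [mem_union, mem_union, mem_union, mem_filter, mem_image]
    rcases lt_or_ge y p with h1 | h1
    · right
      exact ⟨hp', h1⟩
    · left
      by_cases h2 : (p : ℤ) ∣ t ^ 2 - 4 * c
      · left; right
        rw [Nat.mem_primeFactors]
        refine ⟨hpp, Int.natCast_dvd.1 h2, ?_⟩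
        rw [ne_eq, Int.natAbs_eq_zero]
        have := U.disc
        intro h0
        linarith
      · by_cases h3 : p = 2 ∨ p = 3
        · left; left
          rw [mem_insert, mem_singleton]
          exact h3
        · right
          push Not at h3
          have h4 : 5 ≤ p := by
            have := hpp.two_le
            by_contra h5
            have h6 : p = 4 := by omega
            rw [h6] at hpp
            norm_num at hpp
          obtain ⟨r, hr0, hr1, hr2, hr3⟩ := root_of hz hpp hpd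
          exact ⟨(p, r), mem_filter.2 ⟨mem_TT.2 ⟨h4, h1, hpp, h2, hr0, hr1, hr2⟩, hr3⟩, rfl⟩
  have h1 := card_le_card hsub
  have h2 := card_union_le (({2, 3} ∪ (t ^ 2 - 4 * c).natAbs.primeFactors) ∪
      ((TT t c y).filter (fun e => lat e.1 e.2 z)).image Prod.fst)
      ((nm z).primeFactors.filter (fun p => y < p))
  have h3 := card_union_le ({2, 3} ∪ (t ^ 2 - 4 * c).natAbs.primeFactors)
      (((TT t c y).filter (fun e => lat e.1 e.2 z)).image Prod.fst)
  have h4 := card_union_le ({2, 3} : Finset ℕ) (t ^ 2 - 4 * c).natAbs.primeFactors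
  have h5 : ((nm z).primeFactors.filter (fun p => y < p)).card < 9 :=
    large_card (nm_posz U (prim_ne_zero hz)).ne' h
  have h6 : (((TT t c y).filter (fun e => lat e.1 e.2 z)).image Prod.fst).card ≤
    ((TT t c y).filter (fun e => lat e.1 e.2 z)).card := card_image_le
  have h7 : ({2, 3} : Finset ℕ).card = 2 := by decide
  unfold K0
  omega

/-- pairs of coprime moduli -/
theorem two_lat {p q : ℕ} (hpq : Nat.Coprime p q) (r s : ℤ) : ∃ u : ℤ, ∀ z : Qd t c,
    lat p r z → lat q s z → lat (p * q) u z := by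
  have h := Nat.isCoprime_iff_coprime.2 hpq
  obtain ⟨a, b, hab⟩ := h
  refine ⟨r * (b * q) + s * (a * p), fun z h1 h2 => ?_⟩
  unfold lat at *
  push_cast
  apply IsCoprime.mul_dvd ⟨a, b, hab⟩
  · have e : z.re + (r * (b * q) + s * (a * p)) * z.im =
      (z.re + r * z.im) + p * (a * (s - r) * z.im) := by
      have : b * (q : ℤ) = 1 - a * p := by linarith
      rw [this]; ring
    rw [e]
    exact dvd_add h1 (dvd_mul_right _ _)
  · have e : z.re + (r * (b * q) + s * (a * p)) * z.im =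
      (z.re + s * z.im) + q * (b * (r - s) * z.im) := by
      have : a * (p : ℤ) = 1 - b * q := by linarith
      rw [this]; ring
    rw [e]
    exact dvd_add h2 (dvd_mul_right _ _)

/-- the second moment, one row -/
theorem row_le {C X : ℝ} (U : Un t c η) (hX : 1 ≤ X) (hC : 0 < C)
    (hball : ∀ (d : ℕ) (r : ℤ), 1 ≤ d →
      |(((ball η X).filter (lat d r)).card : ℝ) - kap η * X / d| ≤ C * Real.sqrt X)
    (y : ℕ) (e : ℕ × ℤ) (he : e ∈ TT t c y) :
    ∑ e' ∈ TT t c y, (((ball η X).filter (fun z => lat e.1 e.2 z ∧ lat e'.1 e'.2 z)).card : ℝ) ≤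
      kap η * X / e.1 * (∑ e' ∈ TT t c y, 1 / (e'.1 : ℝ)) + (TT t c y).card * (C * Real.sqrt X) +
      2 * (((ball η X).filter (lat e.1 e.2)).card : ℝ) := by
  have hk := kap_pos U
  have hE : 0 ≤ C * Real.sqrt X := by positivity
  have he' := he
  rw [mem_TT] at he'
  obtain ⟨_, _, hp, _⟩ := he'
  have hp0 : (0 : ℝ) < e.1 := by exact_mod_cast hp.pos
  have h1 : ∀ e' ∈ TT t c y,
      (((ball η X).filter (fun z => lat e.1 e.2 z ∧ lat e'.1 e'.2 z)).card : ℝ) ≤
      (kap η * X / e.1 * (1 / (e'.1 : ℝ)) + C * Real.sqrt X) +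
      (if e'.1 = e.1 then (((ball η X).filter (lat e.1 e.2)).card : ℝ) else 0) := by
    intro e' he'
    rw [mem_TT] at he'
    obtain ⟨_, _, hq, _⟩ := he'
    have hq0 : (0 : ℝ) < e'.1 := by exact_mod_cast hq.pos
    by_cases h : e'.1 = e.1
    · rw [if_pos h]
      have h2 : (((ball η X).filter (fun z => lat e.1 e.2 z ∧ lat e'.1 e'.2 z)).card : ℝ) ≤
        (((ball η X).filter (lat e.1 e.2)).card : ℝ) := by
        exact_mod_cast card_le_card (fun z hz => by
          rw [mem_filter] at hz ⊢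
          exact ⟨hz.1, hz.2.1⟩)
      have h3 : 0 ≤ kap η * X / e.1 * (1 / (e'.1 : ℝ)) := by positivity
      linarith
    · rw [if_neg h, add_zero]
      obtain ⟨u, hu⟩ := two_lat (t := t) (c := c)
        ((Nat.coprime_primes hp hq).2 (fun h5 => h h5.symm)) e.2 e'.2
      have h2 : (((ball η X).filter (fun z => lat e.1 e.2 z ∧ lat e'.1 e'.2 z)).card : ℝ) ≤
        (((ball η X).filter (lat (e.1 * e'.1) u)).card : ℝ) := by
        exact_mod_cast card_le_card (fun z hz => by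
          rw [mem_filter] at hz ⊢
          exact ⟨hz.1, hu z hz.2.1 hz.2.2⟩)
      have h3 := (abs_le.1 (hball (e.1 * e'.1) u (Nat.mul_pos hp.pos hq.pos))).2
      have h4 : kap η * X / ((e.1 * e'.1 : ℕ) : ℝ) = kap η * X / e.1 * (1 / (e'.1 : ℝ)) := by
        push_cast
        field_simp
      rw [h4] at h3
      linarith
  refine (sum_le_sum h1).trans ?_
  rw [sum_add_distrib, sum_add_distrib, ← mul_sum, sum_const, nsmul_eq_mul, ← sum_filter,
    sum_const, nsmul_eq_mul]
  have h2 : (((TT t c y).filter (fun e' => e'.1 = e.1)).card : ℝ) ≤ 2 := by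
    exact_mod_cast fib_card y e.1
  have h3 : (0 : ℝ) ≤ (((ball η X).filter (lat e.1 e.2)).card : ℝ) := by positivity
  have h4 := mul_le_mul_of_nonneg_right h2 h3
  linarith

theorem var_le {C X : ℝ} (U : Un t c η) (hX : 1 ≤ X) (hC : 0 < C)
    (hball : ∀ (d : ℕ) (r : ℤ), 1 ≤ d →
      |(((ball η X).filter (lat d r)).card : ℝ) - kap η * X / d| ≤ C * Real.sqrt X)
    (y : ℕ) :
    ∑ z ∈ ball η X, ((((TT t c y).filter (fun e => lat e.1 e.2 z)).card : ℝ) -
      ∑ e ∈ TT t c y, 1 / (e.1 : ℝ)) ^ 2 ≤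
      2 * kap η * X * (∑ e ∈ TT t c y, 1 / (e.1 : ℝ)) +
        4 * (C * Real.sqrt X) * (((TT t c y).card : ℝ) + 1) ^ 2 := by
  classical
  have hk := kap_pos U
  set W : ℝ := ∑ e ∈ TT t c y, 1 / (e.1 : ℝ) with hW
  set E : ℝ := C * Real.sqrt X with hEdef
  have hE : 0 ≤ E := by rw [hEdef]; positivity
  set T := TT t c y with hT
  set n : ℝ := (T.card : ℝ) with hn
  have hn0 : 0 ≤ n := by rw [hn]; positivity
  have hprime : ∀ e ∈ T, e.1.Prime := fun e he => (mem_TT.1 he).2.2.1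
  have hW0 : 0 ≤ W := sum_nonneg fun e _ => by positivity
  have hWn : W ≤ n := by
    rw [hW, hn, Finset.card_eq_sum_ones]
    push_cast
    refine sum_le_sum fun e he => ?_
    have h1 : (1 : ℝ) ≤ e.1 := by exact_mod_cast (hprime e he).pos
    rw [div_le_one (by linarith)]
    exact h1
  set f : Qd t c → ℝ := fun z => ((T.filter (fun e => lat e.1 e.2 z)).card : ℝ) with hf
  -- the number of points
  have hN : ((ball η X).card : ℝ) ≤ kap η * X + E := by
    have h1 := (abs_le.1 (hball 1 0 le_rfl)).2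
    have h2 : (ball η X).filter (lat 1 0) = ball η X := by
      apply filter_true_of_mem
      intro z _
      exact lat_one z
    rw [h2] at h1
    push_cast at h1
    rw [div_one] at h1
    linarith
  -- first moment
  have hS1 : ∑ z ∈ ball η X, f z = ∑ e ∈ T, (((ball η X).filter (lat e.1 e.2)).card : ℝ) := by
    have h1 := swap_sum (ball η X) T (fun _ => 1)
    simp only [sum_const, nsmul_eq_mul, mul_one, one_mul] at h1
    exact h1
  have hL : ∑ e ∈ T, kap η * X / (e.1 : ℝ) = kap η * X * W := by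
    rw [hW, mul_sum]
    refine sum_congr rfl fun e _ => ?_
    ring
  have hS1lo : kap η * X * W - n * E ≤ ∑ z ∈ ball η X, f z := by
    rw [hS1]
    have h1 : ∑ e ∈ T, (kap η * X / (e.1 : ℝ) - E) ≤
        ∑ e ∈ T, (((ball η X).filter (lat e.1 e.2)).card : ℝ) := by
      refine sum_le_sum fun e he => ?_
      have := (abs_le.1 (hball e.1 e.2 (hprime e he).pos)).1
      linarith
    rw [sum_sub_distrib, hL, sum_const, nsmul_eq_mul] at h1
    exact h1
  have hS1up : ∑ e ∈ T, (((ball η X).filter (lat e.1 e.2)).card : ℝ) ≤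
      kap η * X * W + n * E := by
    have h1 : ∑ e ∈ T, (((ball η X).filter (lat e.1 e.2)).card : ℝ) ≤
        ∑ e ∈ T, (kap η * X / (e.1 : ℝ) + E) := by
      refine sum_le_sum fun e he => ?_
      have := (abs_le.1 (hball e.1 e.2 (hprime e he).pos)).2
      linarith
    rw [sum_add_distrib, hL, sum_const, nsmul_eq_mul] at h1
    exact h1
  -- second moment
  have hS2 : ∑ z ∈ ball η X, f z ^ 2 ≤
      kap η * X * W ^ 2 + n ^ 2 * E + 2 * (kap η * X * W + n * E) := by
    have h1 : ∑ z ∈ ball η X, f z ^ 2 = ∑ e ∈ T, ∑ e' ∈ T,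
        (((ball η X).filter (fun z => lat e.1 e.2 z ∧ lat e'.1 e'.2 z)).card : ℝ) := by
      have h2 : ∀ z, f z ^ 2 = ∑ e ∈ T, ∑ e' ∈ T,
          (if lat e.1 e.2 z ∧ lat e'.1 e'.2 z then (1 : ℝ) else 0) := by
        intro z
        have h3 : f z = ∑ e ∈ T, (if lat e.1 e.2 z then (1 : ℝ) else 0) := by
          rw [hf]
          simp only [card_filter]
          push_cast
          rfl
        rw [sq, h3, sum_mul_sum]
        refine sum_congr rfl fun e _ => sum_congr rfl fun e' _ => ?_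
        by_cases ha : lat e.1 e.2 z <;> by_cases hb : lat e'.1 e'.2 z <;> simp [ha, hb]
      simp_rw [h2]
      rw [sum_comm]
      refine sum_congr rfl fun e _ => ?_
      rw [sum_comm]
      refine sum_congr rfl fun e' _ => ?_
      rw [card_filter]
      push_cast
      rfl
    rw [h1]
    refine (sum_le_sum fun e he => row_le U hX hC hball y e he).trans ?_
    rw [sum_add_distrib, sum_add_distrib, ← sum_mul, sum_const, nsmul_eq_mul, ← mul_sum]
    change (∑ e ∈ T, kap η * X / (e.1 : ℝ)) * W + n * (n * E) +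
      2 * ∑ e ∈ T, (((ball η X).filter (lat e.1 e.2)).card : ℝ) ≤ _
    rw [hL]
    nlinarith [hS1up]
  have h1 : ∑ z ∈ ball η X, (f z - W) ^ 2 = ∑ z ∈ ball η X, f z ^ 2 -
      2 * W * ∑ z ∈ ball η X, f z + W ^ 2 * ((ball η X).card : ℝ) := by
    have : ∀ z, (f z - W) ^ 2 = f z ^ 2 - 2 * W * f z + W ^ 2 := fun z => by ring
    simp_rw [this]
    rw [sum_add_distrib, sum_sub_distrib, ← mul_sum, sum_const, nsmul_eq_mul]
    ring
  change ∑ z ∈ ball η X, (f z - W) ^ 2 ≤ 2 * kap η * X * W + 4 * E * (n + 1) ^ 2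
  rw [h1]
  have h2 : 2 * W * (kap η * X * W - n * E) ≤ 2 * W * ∑ z ∈ ball η X, f z :=
    mul_le_mul_of_nonneg_left hS1lo (by positivity)
  have h3 : W ^ 2 * ((ball η X).card : ℝ) ≤ W ^ 2 * (kap η * X + E) :=
    mul_le_mul_of_nonneg_left hN (by positivity)
  have h4 : W * (n * E) ≤ n * (n * E) := mul_le_mul_of_nonneg_right hWn (by positivity)
  have h5 : W ^ 2 * E ≤ n ^ 2 * E :=
    mul_le_mul_of_nonneg_right (pow_le_pow_left₀ hW0 hWn 2) hE
  nlinarith [mul_nonneg hn0 hE]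

theorem ev_typ (L₀ : ℝ) : ∃ X₀ : ℝ, ∀ X : ℝ, X₀ ≤ X → 1 ≤ X ∧
    L₀ ≤ Real.log (Real.log X) ∧ 3 ≤ ⌊X ^ (1 / 9 : ℝ)⌋₊ := by
  have h1 : Tendsto (fun X : ℝ => Real.log (Real.log X)) atTop atTop :=
    Real.tendsto_log_atTop.comp Real.tendsto_log_atTop
  have h2 : Tendsto (fun X : ℝ => X ^ (1 / 9 : ℝ)) atTop atTop :=
    tendsto_rpow_atTop (by norm_num)
  have h3 : Tendsto (fun X : ℝ => ⌊X ^ (1 / 9 : ℝ)⌋₊) atTop atTop :=
    tendsto_nat_floor_atTop.comp h2
  have h5 : ∀ᶠ X : ℝ in atTop, 1 ≤ X ∧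
    L₀ ≤ Real.log (Real.log X) ∧ 3 ≤ ⌊X ^ (1 / 9 : ℝ)⌋₊ := by
    filter_upwards [eventually_ge_atTop 1, h1.eventually_ge_atTop L₀,
      h3.eventually_ge_atTop 3] with X a b d
    exact ⟨a, b, d⟩
  exact eventually_atTop.1 h5

theorem typ_of (U : Un t c η) : S_LAT t c η → S_LATI t c η → S_TYP t c η := by
  classical
  rintro ⟨C, hC, hball, _⟩ hI ε δ hε hδ
  obtain ⟨K, hK, hmert⟩ := mert_one U hI
  have hk := kap_pos U
  set M : ℝ := 2 * kap η * (1 + K) + 36 * C with hM
  have hM0 : 0 < M := by rw [hM]; positivity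
  obtain ⟨X₀, hX₀⟩ := ev_typ (max 1 (max (2 * (K0 t c + 9 + K) / ε) (4 * M / (ε ^ 2 * δ))))
  refine ⟨X₀, fun X hX => ?_⟩
  obtain ⟨hX1, hLL, hy3⟩ := hX₀ X hX
  set LL : ℝ := Real.log (Real.log X) with hLLdef
  have hLL1 : 1 ≤ LL := (le_max_left _ _).trans hLL
  have hLL2 : 2 * (K0 t c + 9 + K) / ε ≤ LL :=
    ((le_max_left _ _).trans (le_max_right _ _)).trans hLL
  have hLL3 : 4 * M / (ε ^ 2 * δ) ≤ LL :=
    ((le_max_right _ _).trans (le_max_right _ _)).trans hLL
  have hX0 : 0 < X := by linarith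
  set y : ℕ := ⌊X ^ (1 / 9 : ℝ)⌋₊ with hydef
  have hr0 : 0 ≤ X ^ (1 / 9 : ℝ) := Real.rpow_nonneg hX0.le _
  have hr9 : (X ^ (1 / 9 : ℝ)) ^ 9 = X := by
    rw [← Real.rpow_natCast, ← Real.rpow_mul hX0.le]
    norm_num
  have hy1 : (y : ℝ) ≤ X ^ (1 / 9 : ℝ) := Nat.floor_le hr0
  have hy2 : X ^ (1 / 9 : ℝ) < (y : ℝ) + 1 := Nat.lt_floor_add_one _
  have hy9 : X < ((y : ℝ) + 1) ^ 9 := by
    calc X = (X ^ (1 / 9 : ℝ)) ^ 9 := hr9.symm
      _ < ((y : ℝ) + 1) ^ 9 := pow_lt_pow_left₀ hy2 hr0 (by norm_num)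
  have h3y : (3 : ℝ) ≤ y := by exact_mod_cast hy3
  set W : ℝ := ∑ e ∈ TT t c y, 1 / (e.1 : ℝ) with hWdef
  have hW2 : W ≤ LL + K := by
    have h1 := hmert y (by omega)
    have h2 : Real.log (Real.log y) ≤ LL := by
      have h4 : (y : ℝ) ≤ X := by
        refine hy1.trans ?_
        calc X ^ (1 / 9 : ℝ) ≤ X ^ (1 : ℝ) := Real.rpow_le_rpow_of_exponent_le hX1 (by norm_num)
          _ = X := Real.rpow_one X
      have h5 : 0 < Real.log y := Real.log_pos (by linarith)
      exact Real.log_le_log h5 (Real.log_le_log (by linarith) h4)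
    linarith
  have hε2 : K0 t c + 9 + K ≤ ε / 2 * LL := by
    rw [div_le_iff₀ hε] at hLL2
    linarith
  set BX := (pball η X).filter (fun z => (1 + ε) * LL < (((nm z).primeFactors.card : ℕ) : ℝ))
    with hBX
  have hvar := var_le U hX1 hC (fun d r hd => hball X d r hX1 hd) y
  rw [← hWdef] at hvar
  -- the bad elements
  have hbad : (BX.card : ℝ) * (ε / 2 * LL) ^ 2 ≤
      ∑ z ∈ ball η X, ((((TT t c y).filter (fun e => lat e.1 e.2 z)).card : ℝ) - W) ^ 2 := by
    have h1 : BX ⊆ ball η X := by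
      intro z hz
      rw [hBX, mem_filter, pball, mem_filter] at hz
      exact hz.1.1
    refine le_trans ?_ (sum_le_sum_of_subset_of_nonneg h1 fun z _ _ => by positivity)
    rw [← nsmul_eq_mul, ← sum_const]
    refine sum_le_sum fun z hz => ?_
    rw [hBX, mem_filter, U.mem_pball] at hz
    obtain ⟨⟨_, h2, h3⟩, h4⟩ := hz
    have h5 : nm z < (y + 1) ^ 9 := by
      have : ((nm z : ℕ) : ℝ) < (((y + 1) ^ 9 : ℕ) : ℝ) := by
        push_cast
        linarith
      exact_mod_cast this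
    have h6 := omega_le U h2 y h5
    have h7 : (((nm z).primeFactors.card : ℕ) : ℝ) ≤
        (((TT t c y).filter (fun e => lat e.1 e.2 z)).card : ℝ) + K0 t c + 9 := by
      exact_mod_cast h6
    have h8 : ε / 2 * LL ≤ (((TT t c y).filter (fun e => lat e.1 e.2 z)).card : ℝ) - W := by
      linarith
    exact pow_le_pow_left₀ (by positivity) h8 2
  -- the error term
  have herr : 4 * (C * Real.sqrt X) * (((TT t c y).card : ℝ) + 1) ^ 2 ≤ 36 * C * X := by
    have h1 : ((TT t c y).card : ℝ) ≤ 2 * y := by exact_mod_cast card_TT (t := t) (c := c) y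
    have h2 : (((TT t c y).card : ℝ) + 1) ^ 2 ≤ (3 * (y : ℝ)) ^ 2 :=
      pow_le_pow_left₀ (by positivity) (by linarith) 2
    have h3 : (y : ℝ) ^ 2 ≤ (X ^ (1 / 9 : ℝ)) ^ 2 := pow_le_pow_left₀ (by positivity) hy1 2
    have h4 : (X ^ (1 / 9 : ℝ)) ^ 2 ≤ Real.sqrt X := by
      rw [Real.sqrt_eq_rpow, ← Real.rpow_natCast, ← Real.rpow_mul hX0.le]
      exact Real.rpow_le_rpow_of_exponent_le hX1 (by norm_num)
    have h5 : Real.sqrt X * Real.sqrt X = X := Real.mul_self_sqrt hX0.le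
    have h6 : 0 ≤ Real.sqrt X := Real.sqrt_nonneg _
    calc 4 * (C * Real.sqrt X) * (((TT t c y).card : ℝ) + 1) ^ 2
        ≤ 4 * (C * Real.sqrt X) * (3 * (y : ℝ)) ^ 2 := by gcongr
      _ = 36 * C * (Real.sqrt X * (y : ℝ) ^ 2) := by ring
      _ ≤ 36 * C * (Real.sqrt X * Real.sqrt X) := by
        have := h3.trans h4
        gcongr
      _ = 36 * C * X := by rw [h5]
  have hfin : (BX.card : ℝ) * (ε / 2 * LL) ^ 2 ≤ LL * M * X := by
    have h1 : 2 * kap η * X * W ≤ 2 * kap η * X * (LL * (1 + K)) := by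
      have : W ≤ LL * (1 + K) := by nlinarith
      gcongr
    have h2 : 36 * C * X ≤ LL * (36 * C * X) := by
      have : 0 ≤ 36 * C * X := by positivity
      nlinarith
    have h3 : LL * M * X = 2 * kap η * X * (LL * (1 + K)) + LL * (36 * C * X) := by
      rw [hM]; ring
    linarith
  -- conclusion
  have hLL0 : 0 < LL := by linarith
  have h1 : (BX.card : ℝ) * (ε ^ 2 / 4 * LL) ≤ M * X := by
    have h2 : (BX.card : ℝ) * (ε / 2 * LL) ^ 2 = ((BX.card : ℝ) * (ε ^ 2 / 4 * LL)) * LL := by ring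
    rw [h2] at hfin
    have h3 : (BX.card : ℝ) * (ε ^ 2 / 4 * LL) * LL ≤ (M * X) * LL := by linarith
    exact le_of_mul_le_mul_right h3 hLL0
  have h2 : M * 4 ≤ LL * (ε ^ 2 * δ) := by
    rw [div_le_iff₀ (by positivity)] at hLL3
    linarith
  have h3 : (BX.card : ℝ) * (ε ^ 2 * LL) ≤ (δ * X) * (ε ^ 2 * LL) := by
    have h4 := mul_le_mul_of_nonneg_right h2 hX0.le
    nlinarith
  exact le_of_mul_le_mul_right h3 (by positivity)

end Pool.Agent.W29.GR
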