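import Pool.Agent.W78.GR.Basic

/-!
Project GR (helper78), task GR-18: pairs (split prime, root), Mertens estimates for them.
-/

set_option autoImplicit false

namespace Pool.Agent.W29.GR

open Finset Filter Topology
open Pool.Agent.H376R2.MR Pool.Agent.W78.GR

variable {t c : ℤ} {η : (Qd t c)ˣ}

theorem nm_posz (U : Un t c η) {z : Qd t c} (hz : z ≠ 0) : 0 < nm z :=
  Nat.pos_of_ne_zero fun h => hz ((nm_eq_zero U.nsq).1 h)

theorem nm_mod_lat {d : ℕ} {r : ℤ} (hr : (d : ℤ) ∣ r ^ 2 - t * r + c)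
    {z : Qd t c} (hz : lat d r z) : d ∣ nm z := by
  unfold nm
  rw [← Int.natCast_dvd]
  unfold lat at hz
  have e : z.re ^ 2 + t * z.re * z.im + c * z.im ^ 2 =
      (z.re + r * z.im) * (z.re + (t - r) * z.im) + z.im ^ 2 * (r ^ 2 - t * r + c) := by ring
  rw [e]
  exact dvd_add (hz.mul_right _) (hr.mul_left _)

/-- pairs of a prime `5 ≤ p ≤ y`, not dividing the discriminant, and a root modulo `p` -/
noncomputable def TT (t c : ℤ) (y : ℕ) : Finset (ℕ × ℤ) :=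
  ((Icc 5 y) ×ˢ (Ico (0 : ℤ) y)).filter (fun e => e.1.Prime ∧ ¬ (e.1 : ℤ) ∣ t ^ 2 - 4 * c ∧
    e.2 < e.1 ∧ (e.1 : ℤ) ∣ e.2 ^ 2 - t * e.2 + c)

theorem mem_TT {y : ℕ} {e : ℕ × ℤ} : e ∈ TT t c y ↔ 5 ≤ e.1 ∧ e.1 ≤ y ∧ e.1.Prime ∧
    ¬ (e.1 : ℤ) ∣ t ^ 2 - 4 * c ∧ 0 ≤ e.2 ∧ e.2 < e.1 ∧ (e.1 : ℤ) ∣ e.2 ^ 2 - t * e.2 + c := by
  unfold TT
  rw [mem_filter, mem_product, mem_Icc, mem_Ico]
  constructor
  · rintro ⟨⟨⟨h1, h2⟩, h3, h4⟩, h5, h6, h7, h8⟩
    exact ⟨h1, h2, h5, h6, h3, h7, h8⟩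
  · rintro ⟨h1, h2, h3, h4, h5, h6, h7⟩
    exact ⟨⟨⟨h1, h2⟩, h5, by omega⟩, h3, h4, h6, h7⟩

theorem eq_of_dvd_sub {p : ℕ} {r s : ℤ} (hr0 : 0 ≤ r) (hrp : r < p) (hs0 : 0 ≤ s) (hsp : s < p)
    (h : (p : ℤ) ∣ r - s) : r = s := by
  have := Int.eq_zero_of_abs_lt_dvd h (by rw [abs_lt]; constructor <;> linarith)
  linarith

theorem root_sum {p : ℕ} (hp : p.Prime) {r s : ℤ} (hr0 : 0 ≤ r) (hrp : r < p) (hs0 : 0 ≤ s)
    (hsp : s < p) (hr : (p : ℤ) ∣ r ^ 2 - t * r + c) (hs : (p : ℤ) ∣ s ^ 2 - t * s + c)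
    (hne : r ≠ s) : (p : ℤ) ∣ r + s - t := by
  have h := dvd_sub hr hs
  have e : r ^ 2 - t * r + c - (s ^ 2 - t * s + c) = (r - s) * (r + s - t) := by ring
  rw [e] at h
  rcases (Nat.prime_iff_prime_int.1 hp).dvd_or_dvd h with h1 | h1
  · exact absurd (eq_of_dvd_sub hr0 hrp hs0 hsp h1) hne
  · exact h1

theorem fib_card (y p : ℕ) : ((TT t c y).filter (fun e => e.1 = p)).card ≤ 2 := by
  by_contra h
  push Not at h
  obtain ⟨a, ha, b, hb, d, hd, hab, had, hbd⟩ := Finset.two_lt_card.1 h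
  rw [mem_filter, mem_TT] at ha hb hd
  obtain ⟨⟨_, _, hp, _, ha0, ha1, ha2⟩, hap⟩ := ha
  obtain ⟨⟨_, _, _, _, hb0, hb1, hb2⟩, hbp⟩ := hb
  obtain ⟨⟨_, _, _, _, hd0, hd1, hd2⟩, hdp⟩ := hd
  rw [hap] at hp ha1 ha2
  rw [hbp] at hb1 hb2
  rw [hdp] at hd1 hd2
  have h1 : a.2 ≠ b.2 := fun h => hab (Prod.ext (hap.trans hbp.symm) h)
  have h2 : a.2 ≠ d.2 := fun h => had (Prod.ext (hap.trans hdp.symm) h)
  have h3 := root_sum hp ha0 ha1 hb0 hb1 ha2 hb2 h1
  have h4 := root_sum hp ha0 ha1 hd0 hd1 ha2 hd2 h2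
  have h5 := dvd_sub h3 h4
  have e : a.2 + b.2 - t - (a.2 + d.2 - t) = b.2 - d.2 := by ring
  rw [e] at h5
  exact hbd (Prod.ext (hbp.trans hdp.symm) (eq_of_dvd_sub hb0 hb1 hd0 hd1 h5))

theorem both_lat {p : ℕ} (hp : p.Prime) {r s : ℤ} (hr0 : 0 ≤ r) (hrp : r < p) (hs0 : 0 ≤ s)
    (hsp : s < p) (hne : r ≠ s) {z : Qd t c} (h1 : lat p r z) (h2 : lat p s z) :
    ((p : ℕ) : Qd t c) ∣ z := by
  unfold lat at h1 h2
  have h := dvd_sub h1 h2
  have e : z.re + r * z.im - (z.re + s * z.im) = (r - s) * z.im := by ring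
  rw [e] at h
  have h3 : (p : ℤ) ∣ z.im := by
    rcases (Nat.prime_iff_prime_int.1 hp).dvd_or_dvd h with h | h
    · exact absurd (eq_of_dvd_sub hr0 hrp hs0 hsp h) hne
    · exact h
  rw [natCast_dvd]
  refine ⟨?_, h3⟩
  have := dvd_sub h1 (h3.mul_left r)
  simpa using this

theorem val_le (U : Un t c η) {z : Qd t c} (hz : z ≠ 0) (y p : ℕ) :
    (((TT t c y).filter (fun e => lat e.1 e.2 z)).filter (fun e => e.1 = p)).card ≤
      (nm z).factorization p := by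
  have hn : nm z ≠ 0 := (nm_posz U hz).ne'
  set F := ((TT t c y).filter (fun e => lat e.1 e.2 z)).filter (fun e => e.1 = p) with hF
  rcases F.eq_empty_or_nonempty with h | ⟨a, ha⟩
  · rw [h]; simp
  have ha' := ha
  rw [hF, mem_filter, mem_filter, mem_TT] at ha
  obtain ⟨⟨⟨_, _, hp, _, ha0, ha1, ha2⟩, ha3⟩, hap⟩ := ha
  rw [hap] at hp ha1 ha2 ha3
  rcases Nat.lt_or_ge 1 F.card with h1 | h1
  · have h2 : F.card ≤ 2 := by
      refine le_trans (Finset.card_le_card ?_) (fib_card (t := t) (c := c) y p)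
      rw [hF]
      exact Finset.filter_subset_filter _ (Finset.filter_subset _ _)
    refine h2.trans ?_
    obtain ⟨b, hb, hba⟩ := Finset.exists_mem_ne h1 a
    rw [hF, mem_filter, mem_filter, mem_TT] at hb
    obtain ⟨⟨⟨_, _, _, _, hb0, hb1, hb2⟩, hb3⟩, hbp⟩ := hb
    rw [hbp] at hb1 hb2 hb3
    have hne : b.2 ≠ a.2 := fun h => hba (Prod.ext (hbp.trans hap.symm) h)
    have h3 := both_lat hp hb0 hb1 ha0 ha1 hne hb3 ha3
    have h4 := nm_dvd h3
    rw [nm_natCast] at h4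
    exact (hp.pow_dvd_iff_le_factorization hn).1 h4
  · refine h1.trans ?_
    have h3 := nm_mod_lat ha2 ha3
    exact hp.factorization_pos_of_dvd hn h3

theorem log_sum (U : Un t c η) {z : Qd t c} (hz : z ≠ 0) (y : ℕ) :
    ∑ e ∈ (TT t c y).filter (fun e => lat e.1 e.2 z), Real.log (e.1 : ℝ) ≤ Real.log (nm z) := by
  have hn : nm z ≠ 0 := (nm_posz U hz).ne'
  rw [Real.log_nat_eq_sum_factorization, Finsupp.sum]
  have hmaps : ∀ e ∈ (TT t c y).filter (fun e => lat e.1 e.2 z),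
      e.1 ∈ (nm z).factorization.support := by
    intro e he
    rw [mem_filter, mem_TT] at he
    obtain ⟨⟨_, _, hp, _, _, _, h2⟩, h3⟩ := he
    rw [Nat.support_factorization, Nat.mem_primeFactors]
    exact ⟨hp, nm_mod_lat h2 h3, hn⟩
  rw [← Finset.sum_fiberwise_of_maps_to hmaps]
  refine Finset.sum_le_sum fun p hp => ?_
  have h1 : ∑ e ∈ ((TT t c y).filter (fun e => lat e.1 e.2 z)).filter (fun e => e.1 = p),
      Real.log (e.1 : ℝ) =
      ∑ e ∈ ((TT t c y).filter (fun e => lat e.1 e.2 z)).filter (fun e => e.1 = p),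
        Real.log (p : ℝ) := by
    refine Finset.sum_congr rfl fun e he => ?_
    rw [(mem_filter.1 he).2]
  rw [h1, sum_const, nsmul_eq_mul]
  refine mul_le_mul_of_nonneg_right ?_ (Real.log_natCast_nonneg p)
  exact_mod_cast val_le U hz y p

/-- double counting -/
theorem swap_sum (B : Finset (Qd t c)) (T : Finset (ℕ × ℤ)) (g : ℕ × ℤ → ℝ) :
    ∑ z ∈ B, ∑ e ∈ T.filter (fun e => lat e.1 e.2 z), g e =
      ∑ e ∈ T, g e * ((B.filter (lat e.1 e.2)).card : ℝ) := by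
  simp_rw [Finset.sum_filter]
  rw [Finset.sum_comm]
  refine Finset.sum_congr rfl fun e _ => ?_
  rw [← Finset.sum_filter, sum_const, nsmul_eq_mul, mul_comm]

/-- Abel summation -/
theorem abel2 (a w : ℕ → ℝ) (b : ℝ) (hw : ∀ n, 1 ≤ n → w (n + 1) ≤ w n)
    (h : ∀ n : ℕ, ∑ k ∈ Icc 1 n, a k ≤ b * n) (N : ℕ) :
    ∑ n ∈ Icc 1 N, a n * w n + (b * N - ∑ k ∈ Icc 1 N, a k) * w N ≤
      b * ∑ n ∈ Icc 1 N, w n := by
  induction N with
  | zero => simp
  | succ N ih =>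
    rw [← Finset.insert_Icc_right_eq_Icc_add_one (by omega), Finset.sum_insert (by simp),
      Finset.sum_insert (by simp), Finset.sum_insert (by simp)]
    rcases Nat.eq_zero_or_pos N with h0 | h0
    · subst h0
      simp
      linarith
    · have h1 := h N
      have h3 : 0 ≤ (b * N - ∑ k ∈ Icc 1 N, a k) * (w N - w (N + 1)) :=
        mul_nonneg (by linarith) (by linarith [hw N h0])
      push_cast
      nlinarith

theorem sum_inv_sqrt_nat (N : ℕ) : ∑ n ∈ Icc 1 N, 1 / Real.sqrt n ≤ 2 * Real.sqrt N := by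
  induction N with
  | zero => simp
  | succ N ih =>
    rw [← Finset.insert_Icc_right_eq_Icc_add_one (by omega), Finset.sum_insert (by simp)]
    have h1 : 1 / Real.sqrt ((N + 1 : ℕ) : ℝ) ≤
        2 * (Real.sqrt ((N + 1 : ℕ) : ℝ) - Real.sqrt N) := by
      have h2 : 0 < Real.sqrt ((N + 1 : ℕ) : ℝ) := Real.sqrt_pos.2 (by positivity)
      rw [div_le_iff₀ h2]
      have h3 := Real.mul_self_sqrt (show (0 : ℝ) ≤ ((N + 1 : ℕ) : ℝ) by positivity)
      have h4 := Real.mul_self_sqrt (show (0 : ℝ) ≤ (N : ℝ) by positivity)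
      push_cast at h3 ⊢
      nlinarith [sq_nonneg (Real.sqrt ((N : ℝ) + 1) - Real.sqrt N)]
    linarith

theorem cheb_sqrt (N : ℕ) : ∑ p ∈ (Icc 1 N).filter Nat.Prime, Real.log p / Real.sqrt p ≤
    2 * Real.log 4 * Real.sqrt N := by
  have h1 := abel2 (fun p => if p.Prime then Real.log p else 0) (fun n => 1 / Real.sqrt n)
    (Real.log 4) (by
      intro n hn
      have h0 : (0 : ℝ) < n := by exact_mod_cast hn
      refine one_div_le_one_div_of_le (Real.sqrt_pos.2 h0) (Real.sqrt_le_sqrt ?_)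
      push_cast; linarith) (by
      intro n
      rw [← Finset.sum_filter]
      refine le_trans (le_of_eq ?_) (Chebyshev.theta_le_log4_mul_x (Nat.cast_nonneg n))
      unfold Chebyshev.theta
      rw [Nat.floor_natCast]
      rfl) N
  have h2 := sum_inv_sqrt_nat N
  have h3 : 0 ≤ (Real.log 4 * N - ∑ k ∈ Icc 1 N, (fun p : ℕ => if p.Prime then Real.log p else 0) k) *
      (fun n : ℕ => 1 / Real.sqrt n) N := by
    refine mul_nonneg ?_ (by positivity)
    have h4 := Chebyshev.theta_le_log4_mul_x (Nat.cast_nonneg (α := ℝ) N)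
    unfold Chebyshev.theta at h4
    rw [Nat.floor_natCast] at h4
    have h5 : ∑ k ∈ Icc 1 N, (fun p : ℕ => if p.Prime then Real.log p else 0) k =
        ∑ p ∈ Ioc 0 N with Nat.Prime p, Real.log p := by
      rw [Finset.sum_filter]
      rfl
    rw [h5]
    linarith
  have h6 : ∑ p ∈ (Icc 1 N).filter Nat.Prime, Real.log p / Real.sqrt p =
      ∑ n ∈ Icc 1 N, (fun p : ℕ => if p.Prime then Real.log p else 0) n *
        (fun n : ℕ => 1 / Real.sqrt n) n := by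
    rw [Finset.sum_filter]
    refine Finset.sum_congr rfl fun n _ => ?_
    simp only
    split_ifs
    · ring
    · ring
  rw [h6]
  have h7 : 0 ≤ Real.log 4 := Real.log_nonneg (by norm_num)
  have h8 := mul_le_mul_of_nonneg_left h2 h7
  linarith

end Pool.Agent.W29.GR
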