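import Pool.Agent.W29.GR.Typ1

/-!
Project GR (helper78), task GR-18: Mertens theorem for the roots, from the lattice points of ideals.
-/

set_option autoImplicit false

namespace Pool.Agent.W29.GR

open Finset Filter Topology
open Pool.Agent.H376R2.MR Pool.Agent.W78.GR

variable {t c : ℤ} {η : (Qd t c)ˣ}

theorem kap_pos (U : Un t c η) : 0 < kap η := by
  unfold kap
  have := Real.sqrt_pos.2 (disc_pos U.disc)
  have := U.rg_pos
  positivity

theorem lat_one (z : Qd t c) : lat 1 0 z := by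
  unfold lat
  simp

theorem card_TT_fib (y : ℕ) (f : ℕ → ℝ) (hf : ∀ p, 0 ≤ f p) :
    ∑ e ∈ TT t c y, f e.1 ≤ 2 * ∑ p ∈ (Icc 1 y).filter Nat.Prime, f p := by
  have hmaps : ∀ e ∈ TT t c y, e.1 ∈ (Icc 1 y).filter Nat.Prime := by
    intro e he
    rw [mem_TT] at he
    rw [mem_filter, mem_Icc]
    exact ⟨⟨by omega, he.2.1⟩, he.2.2.1⟩
  rw [← Finset.sum_fiberwise_of_maps_to hmaps, Finset.mul_sum]
  refine Finset.sum_le_sum fun p _ => ?_
  have h1 : ∑ e ∈ (TT t c y).filter (fun e => e.1 = p), f e.1 =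
      ∑ e ∈ (TT t c y).filter (fun e => e.1 = p), f p :=
    Finset.sum_congr rfl fun e he => by rw [(mem_filter.1 he).2]
  rw [h1, sum_const, nsmul_eq_mul]
  refine mul_le_mul_of_nonneg_right ?_ (hf p)
  exact_mod_cast fib_card (t := t) (c := c) y p

theorem mert_log (U : Un t c η) (h : S_LATI t c η) : ∃ C : ℝ, 0 ≤ C ∧ ∀ N : ℕ, 1 ≤ N →
    ∑ e ∈ TT t c N, Real.log (e.1 : ℝ) / e.1 ≤ Real.log N + C := by
  classical
  obtain ⟨C, hC, hI⟩ := h
  have hk := kap_pos U
  set κ := kap η with hκ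
  refine ⟨(2 * C + 4 * C * Real.log 4) / κ, ?_, fun N hN => ?_⟩
  · have : 0 ≤ Real.log 4 := Real.log_nonneg (by norm_num)
    positivity
  have hNR : (1 : ℝ) ≤ N := by exact_mod_cast hN
  have hN0 : (0 : ℝ) < N := by linarith
  have hlN : 0 ≤ Real.log N := Real.log_nonneg hNR
  have hsN : 0 < Real.sqrt N := Real.sqrt_pos.2 hN0
  have hss : Real.sqrt N * Real.sqrt N = N := Real.mul_self_sqrt hN0.le
  -- the ball
  have hball : ((ball η N).card : ℝ) ≤ κ * N + C * Real.sqrt N := by
    have h1 := (hI 1 0 le_rfl (by simp)).1 N (by simpa using hNR)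
    have h2 : (ball η (N : ℝ)).filter (lat 1 0) = ball η N :=
      Finset.filter_true_of_mem fun z _ => lat_one z
    rw [h2] at h1
    have h3 := (abs_le.1 h1).2
    simp only [Nat.cast_one, div_one] at h3
    linarith
  -- upper bound
  have hup : ∑ e ∈ TT t c N, Real.log (e.1 : ℝ) *
      (((ball η N).filter (lat e.1 e.2)).card : ℝ) ≤ (κ * N + C * Real.sqrt N) * Real.log N := by
    rw [← swap_sum]
    calc ∑ z ∈ ball η N, ∑ e ∈ (TT t c N).filter (fun e => lat e.1 e.2 z), Real.log (e.1 : ℝ) ≤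
        ∑ z ∈ ball η N, Real.log N := by
          refine Finset.sum_le_sum fun z hz => ?_
          rw [U.mem_ball] at hz
          have hz0 : z ≠ 0 := tp_ne_zero hz.1.1
          refine (log_sum U hz0 N).trans (Real.log_le_log (nm_posR U.disc hz.1.1) hz.2)
      _ = ((ball η N).card : ℝ) * Real.log N := by rw [sum_const, nsmul_eq_mul]
      _ ≤ _ := mul_le_mul_of_nonneg_right hball hlN
  -- lower bound
  have hlow : ∀ e ∈ TT t c N, κ * N * (Real.log (e.1 : ℝ) / e.1) -
      C * Real.sqrt N * (Real.log (e.1 : ℝ) / Real.sqrt e.1) ≤ Real.log (e.1 : ℝ) *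
      (((ball η N).filter (lat e.1 e.2)).card : ℝ) := by
    intro e he
    rw [mem_TT] at he
    obtain ⟨h1, h2, h3, _, _, _, h4⟩ := he
    have h5 := (hI e.1 e.2 (by omega) h4).1 N (by exact_mod_cast h2)
    have h6 := (abs_le.1 h5).1
    rw [Real.sqrt_div hN0.le] at h6
    have h7 : 0 ≤ Real.log (e.1 : ℝ) := Real.log_natCast_nonneg _
    have h8 : κ * N / (e.1 : ℝ) - C * (Real.sqrt N / Real.sqrt e.1) ≤
        (((ball η N).filter (lat e.1 e.2)).card : ℝ) := by linarith
    have h9 := mul_le_mul_of_nonneg_left h8 h7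
    refine le_trans (le_of_eq ?_) h9
    ring
  have h1 := Finset.sum_le_sum hlow
  rw [Finset.sum_sub_distrib, ← Finset.mul_sum, ← Finset.mul_sum] at h1
  have h2 : ∑ e ∈ TT t c N, Real.log (e.1 : ℝ) / Real.sqrt e.1 ≤ 4 * Real.log 4 * Real.sqrt N := by
    have h3 := card_TT_fib (t := t) (c := c) N (fun p => Real.log (p : ℝ) / Real.sqrt p) (fun p => by
      have := Real.log_natCast_nonneg p
      positivity)
    have h4 := cheb_sqrt N
    linarith
  have h3 : Real.log N ≤ 2 * Real.sqrt N := by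
    have h4 := Real.add_one_le_exp (Real.log (Real.sqrt N))
    rw [Real.exp_log hsN, Real.log_sqrt hN0.le] at h4
    linarith
  have h4 : C * Real.sqrt N * ∑ e ∈ TT t c N, Real.log (e.1 : ℝ) / Real.sqrt e.1 ≤
      4 * C * Real.log 4 * N := by
    have h5 := mul_le_mul_of_nonneg_left h2 (by positivity : 0 ≤ C * Real.sqrt N)
    have h6 : C * Real.sqrt N * (4 * Real.log 4 * Real.sqrt N) =
        4 * C * Real.log 4 * (Real.sqrt N * Real.sqrt N) := by ring
    rw [h6, hss] at h5
    exact h5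
  have h5 : C * Real.sqrt N * Real.log N ≤ 2 * C * N := by
    have h6 := mul_le_mul_of_nonneg_left h3 (by positivity : 0 ≤ C * Real.sqrt N)
    have h7 : C * Real.sqrt N * (2 * Real.sqrt N) = 2 * C * (Real.sqrt N * Real.sqrt N) := by ring
    rw [h7, hss] at h6
    exact h6
  have h6 : κ * N * ∑ e ∈ TT t c N, Real.log (e.1 : ℝ) / e.1 ≤
      κ * N * (Real.log N + (2 * C + 4 * C * Real.log 4) / κ) := by
    have h7 : κ * N * (Real.log N + (2 * C + 4 * C * Real.log 4) / κ) =
        κ * N * Real.log N + (2 * C + 4 * C * Real.log 4) * N := by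
      field_simp
    rw [h7]
    have h8 : (κ * N + C * Real.sqrt N) * Real.log N = κ * N * Real.log N +
      C * Real.sqrt N * Real.log N := by ring
    rw [h8] at hup
    linarith
  exact le_of_mul_le_mul_left h6 (by positivity)

/-- number of roots modulo `k`, for the primes used -/
noncomputable def rc (t c : ℤ) (k : ℕ) : ℝ := (((TT t c k).filter (fun e => e.1 = k)).card : ℝ)

theorem sum_TT (y : ℕ) (f : ℕ → ℝ) : ∑ e ∈ TT t c y, f e.1 = ∑ k ∈ Icc 2 y, rc t c k * f k := by
  have hmaps : ∀ e ∈ TT t c y, e.1 ∈ Icc 2 y := by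
    intro e he
    rw [mem_TT] at he
    rw [mem_Icc]
    omega
  rw [← Finset.sum_fiberwise_of_maps_to hmaps]
  refine Finset.sum_congr rfl fun k hk => ?_
  rw [mem_Icc] at hk
  have h1 : ∑ e ∈ (TT t c y).filter (fun e => e.1 = k), f e.1 =
      ∑ e ∈ (TT t c y).filter (fun e => e.1 = k), f k :=
    Finset.sum_congr rfl fun e he => by rw [(mem_filter.1 he).2]
  rw [h1, sum_const, nsmul_eq_mul]
  unfold rc
  congr 3
  ext e
  rw [mem_filter, mem_filter, mem_TT, mem_TT]
  constructor
  · rintro ⟨⟨h1, _, h2⟩, h3⟩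
    exact ⟨⟨h1, h3.le, h2⟩, h3⟩
  · rintro ⟨⟨h1, _, h2⟩, h3⟩
    exact ⟨⟨h1, by omega, h2⟩, h3⟩

theorem mert_one (U : Un t c η) (h : S_LATI t c η) : ∃ K : ℝ, 0 ≤ K ∧ ∀ N : ℕ, 2 ≤ N →
    ∑ e ∈ TT t c N, 1 / (e.1 : ℝ) ≤ Real.log (Real.log N) + K := by
  obtain ⟨C, hC, hM⟩ := mert_log U h
  set b : ℕ → ℝ := fun k => rc t c k * (Real.log k / k) with hb
  have hB : ∀ N : ℕ, 2 ≤ N → ∑ k ∈ Icc 2 N, b k ≤ Real.log N + C := by
    intro N hN
    have h1 := hM N (by omega)
    rw [sum_TT N (fun p => Real.log (p : ℝ) / p)] at h1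
    exact h1
  have key : ∀ N : ℕ, 2 ≤ N → ∑ k ∈ Icc 2 N, b k / Real.log k +
      (Real.log N + C - ∑ k ∈ Icc 2 N, b k) / Real.log N ≤
      Real.log (Real.log N) + ((Real.log 2 + C) / Real.log 2 - Real.log (Real.log 2)) := by
    intro N hN
    induction N, hN using Nat.le_induction with
    | base =>
      simp only [Icc_self, sum_singleton, Nat.cast_ofNat]
      rw [← add_div]
      apply le_of_eq
      ring
    | succ N hN ih =>
      rw [← Finset.insert_Icc_right_eq_Icc_add_one (by omega), Finset.sum_insert (by simp),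
        Finset.sum_insert (by simp)]
      have h1 : (2 : ℝ) ≤ N := by exact_mod_cast hN
      have h2 : 0 < Real.log N := Real.log_pos (by linarith)
      have h3 : 0 < Real.log ((N : ℝ) + 1) := Real.log_pos (by linarith)
      have hle : Real.log N ≤ Real.log ((N : ℝ) + 1) := Real.log_le_log (by linarith) (by linarith)
      have hBN := hB N hN
      have h7 : (Real.log ((N : ℝ) + 1) - Real.log N) / Real.log ((N : ℝ) + 1) ≤
          Real.log (Real.log ((N : ℝ) + 1)) - Real.log (Real.log N) := by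
        have h5 := Real.one_sub_inv_le_log_of_pos
          (x := Real.log ((N : ℝ) + 1) / Real.log N) (by positivity)
        rw [Real.log_div h3.ne' h2.ne', inv_div] at h5
        refine le_trans (le_of_eq ?_) h5
        field_simp
      set S := ∑ k ∈ Icc 2 N, b k with hS
      have h8 : (Real.log N + C - S) / Real.log ((N : ℝ) + 1) ≤ (Real.log N + C - S) / Real.log N :=
        div_le_div_of_nonneg_left (by linarith) h2 hle
      have h9 : b (N + 1) / Real.log ((N + 1 : ℕ) : ℝ) +
          (Real.log ((N + 1 : ℕ) : ℝ) + C - (b (N + 1) + S)) / Real.log ((N + 1 : ℕ) : ℝ) =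
          (Real.log ((N : ℝ) + 1) - Real.log N) / Real.log ((N : ℝ) + 1) +
          (Real.log N + C - S) / Real.log ((N : ℝ) + 1) := by
        push_cast
        rw [← add_div, ← add_div]
        congr 1
        ring
      push_cast at h9 ⊢
      linarith
  set K₀ : ℝ := (Real.log 2 + C) / Real.log 2 - Real.log (Real.log 2) with hK
  refine ⟨max K₀ 0, le_max_right _ _, fun N hN => ?_⟩
  have h1 := key N hN
  have h2 := hB N hN
  have hNR : (2 : ℝ) ≤ N := by exact_mod_cast hN
  have h3 : 0 < Real.log N := Real.log_pos (by linarith)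
  have h4 : 0 ≤ (Real.log N + C - ∑ k ∈ Icc 2 N, b k) / Real.log N := by
    apply div_nonneg _ h3.le
    linarith
  have h5 : ∑ e ∈ TT t c N, 1 / (e.1 : ℝ) = ∑ k ∈ Icc 2 N, b k / Real.log k := by
    rw [sum_TT N (fun p => 1 / (p : ℝ))]
    refine Finset.sum_congr rfl fun k hk => ?_
    rw [mem_Icc] at hk
    have h6 : (2 : ℝ) ≤ k := by exact_mod_cast hk.1
    have h7 : 0 < Real.log k := Real.log_pos (by linarith)
    rw [hb]
    field_simp
  rw [h5]
  have := le_max_left K₀ 0
  linarith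

theorem card_TT (y : ℕ) : (TT t c y).card ≤ 2 * y := by
  refine (Finset.card_le_mul_card_image_of_maps_to (f := fun e : ℕ × ℤ => e.1) (t := Icc 1 y)
    ?_ 2 ?_).trans ?_
  · intro e he
    rw [mem_TT] at he
    rw [mem_Icc]
    omega
  · intro p _
    exact fib_card y p
  · rw [Nat.card_Icc]
    omega

end Pool.Agent.W29.GR
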