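import Pool.Agent.W78.GR.Basic

/-!
Project GR (helper78), task GR-18: VE.
-/

set_option autoImplicit false

namespace Pool.Agent.W29.GR

open Finset Filter
open Pool.Agent.H376R2.MR Pool.Agent.W78.GR

variable {t c : ℤ} {η : (Qd t c)ˣ}

/-- few vectors with a given determinant with `v` -/
theorem nbr_card (hD : 4 * c < t ^ 2) (k : ℤ) {X : ℝ} {v : Qd t c} (hv : prim v) (hvt : tp v)
    (hvX : (nm v : ℝ) ≤ X) (S : Finset (Qd t c))
    (hS : ∀ u ∈ S, tp u ∧ (nm u : ℝ) ≤ X ∧ dt v u = k) :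
    ((S.card : ℕ) : ℝ) ≤ 3 * Real.sqrt (X / nm v) := by
  classical
  have hv0 : (0 : ℝ) < nm v := nm_posR hD hvt
  have hX1 : 1 ≤ X / nm v := by rw [le_div_iff₀ hv0]; linarith
  have hs1 : 1 ≤ Real.sqrt (X / nm v) := by
    rw [Real.one_le_sqrt]; exact hX1
  rcases S.eq_empty_or_nonempty with h | hne
  · rw [h, Finset.card_empty, Nat.cast_zero]; linarith
  -- Bezout
  have hcop : IsCoprime v.re v.im := Int.isCoprime_iff_gcd_eq_one.2 hv
  obtain ⟨a, b, hab⟩ := hcop
  set s : Qd t c → ℤ := fun u => a * u.re + b * u.im with hs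
  have hkey : ∀ u ∈ S, ∀ u' ∈ S,
      u - u' = ((s u - s u' : ℤ) : Qd t c) * v := by
    intro u hu u' hu'
    have h1 : v.re * u.im - v.im * u.re = k := (hS u hu).2.2
    have h2 : v.re * u'.im - v.im * u'.re = k := (hS u' hu').2.2
    have h3 : v.re * (u.im - u'.im) = v.im * (u.re - u'.re) := by linear_combination h1 - h2
    apply QuadraticAlgebra.ext
    · simp only [QuadraticAlgebra.re_sub, QuadraticAlgebra.re_mul, QuadraticAlgebra.re_intCast,
        QuadraticAlgebra.im_intCast, Int.cast_id, hs]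
      linear_combination (-(u.re - u'.re)) * hab - b * h3
    · simp only [QuadraticAlgebra.im_sub, QuadraticAlgebra.im_mul, QuadraticAlgebra.re_intCast,
        QuadraticAlgebra.im_intCast, Int.cast_id, hs]
      linear_combination (-(u.im - u'.im)) * hab + a * h3
  have hinj : ∀ u ∈ S, ∀ u' ∈ S, s u = s u' → u = u' := by
    intro u hu u' hu' h
    have := hkey u hu u' hu'
    rw [h, sub_self, Int.cast_zero, zero_mul] at this
    exact sub_eq_zero.1 this
  obtain ⟨u₀, hu₀, hmin⟩ := Finset.exists_min_image S s hne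
  obtain ⟨u₁, hu₁, hmax⟩ := Finset.exists_max_image S s hne
  have hle : s u₀ ≤ s u₁ := hmin u₁ hu₁
  have hcard : S.card ≤ (s u₁ + 1 - s u₀).toNat := by
    rw [← Int.card_Icc, ← Finset.card_image_of_injOn (f := s) (s := S)
      (fun u hu u' hu' h => hinj u hu u' hu' h)]
    apply Finset.card_le_card
    intro y hy
    rw [mem_image] at hy
    obtain ⟨u, hu, rfl⟩ := hy
    rw [mem_Icc]
    exact ⟨hmin u hu, hmax u hu⟩
  have hcard' : ((S.card : ℕ) : ℝ) ≤ ((s u₁ - s u₀ : ℤ) : ℝ) + 1 := by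
    have h1 : ((S.card : ℕ) : ℤ) ≤ s u₁ + 1 - s u₀ := by
      have : ((s u₁ + 1 - s u₀).toNat : ℤ) = s u₁ + 1 - s u₀ := Int.toNat_of_nonneg (by omega)
      rw [← this]
      exact_mod_cast hcard
    have h2 : (((S.card : ℕ) : ℤ) : ℝ) ≤ ((s u₁ + 1 - s u₀ : ℤ) : ℝ) := by
      exact_mod_cast h1
    push_cast at h2 ⊢
    linarith
  have hd : ((s u₁ - s u₀ : ℤ) : ℝ) ≤ Real.sqrt (X / nm v) := by
    rcases hle.eq_or_lt with h0 | h0
    · rw [h0, sub_self, Int.cast_zero]
      exact Real.sqrt_nonneg _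
    · have h1 := hkey u₁ hu₁ u₀ hu₀
      obtain ⟨m, hm⟩ : ∃ m : ℕ, s u₁ - s u₀ = (m : ℤ) := ⟨(s u₁ - s u₀).toNat, by omega⟩
      have hmpos : 0 < m := by omega
      rw [hm, Int.cast_natCast] at h1
      rw [hm, Int.cast_natCast]
      have h2 : u₁ = (m : Qd t c) * v + u₀ := by rw [← h1]; ring
      have e1 : (nm u₁ : ℝ) ≤ X := (hS u₁ hu₁).2.1
      have hmv : tp ((m : Qd t c) * v) := tp_mul hD (tp_natCast hmpos) hvt
      have ht0 := (hS u₀ hu₀).1
      have h3 := nm_add_tp hD hmv ht0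
      rw [← h2, nm_mul, nm_natCast] at h3
      push_cast at h3
      have h4 : 0 < s1 ((m : Qd t c) * v) * s2 u₀ + s2 ((m : Qd t c) * v) * s1 u₀ :=
        add_pos (mul_pos hmv.1 ht0.2) (mul_pos hmv.2 ht0.1)
      have h5 := nm_posR hD ht0
      apply Real.le_sqrt_of_sq_le
      rw [le_div_iff₀ hv0]
      linarith
  linarith

/-- the largest coordinate -/
def mx (z : Qd t c) : ℕ := max z.re.natAbs z.im.natAbs

theorem mx_pos {z : Qd t c} (hz : z ≠ 0) : 1 ≤ mx z := by
  by_contra h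
  have h0 : mx z = 0 := by omega
  unfold mx at h0
  have h1 : z.re.natAbs = 0 := by
    have := le_max_left z.re.natAbs z.im.natAbs; omega
  have h2 : z.im.natAbs = 0 := by
    have := le_max_right z.re.natAbs z.im.natAbs; omega
  exact hz (QuadraticAlgebra.ext (Int.natAbs_eq_zero.1 h1) (Int.natAbs_eq_zero.1 h2))

theorem fiber_card (s : Finset (Qd t c)) {M : ℕ} (hM : 1 ≤ M) :
    (s.filter (fun z => mx z = M)).card ≤ 12 * M := by
  classical
  have hsub : s.filter (fun z => mx z = M) ⊆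
      ((Icc (-(M : ℤ)) M).image (fun y => (⟨M, y⟩ : Qd t c)) ∪
        (Icc (-(M : ℤ)) M).image (fun y => (⟨-M, y⟩ : Qd t c))) ∪
      ((Icc (-(M : ℤ)) M).image (fun x => (⟨x, M⟩ : Qd t c)) ∪
        (Icc (-(M : ℤ)) M).image (fun x => (⟨x, -M⟩ : Qd t c))) := by
    intro z hz
    rw [mem_filter] at hz
    obtain ⟨-, hz⟩ := hz
    unfold mx at hz
    have h1 : z.re.natAbs ≤ M := by rw [← hz]; exact le_max_left _ _
    have h2 : z.im.natAbs ≤ M := by rw [← hz]; exact le_max_right _ _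
    simp only [mem_union, mem_image, mem_Icc]
    obtain ⟨x, y⟩ := z
    simp only at h1 h2 hz
    rcases max_choice x.natAbs y.natAbs with h | h
    · rw [h] at hz
      left
      rcases Int.natAbs_eq x with h3 | h3
      · left; exact ⟨y, by omega, by rw [hz] at h3; rw [h3]⟩
      · right; exact ⟨y, by omega, by rw [hz] at h3; rw [h3]⟩
    · rw [h] at hz
      right
      rcases Int.natAbs_eq y with h3 | h3
      · left; exact ⟨x, by omega, by rw [hz] at h3; rw [h3]⟩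
      · right; exact ⟨x, by omega, by rw [hz] at h3; rw [h3]⟩
  have hI : (Icc (-(M : ℤ)) M).card = 2 * M + 1 := by
    rw [Int.card_Icc]
    omega
  have hc : ∀ f : ℤ → Qd t c, ((Icc (-(M : ℤ)) M).image f).card ≤ 2 * M + 1 := fun f =>
    Finset.card_image_le.trans (le_of_eq hI)
  refine (Finset.card_le_card hsub).trans ?_
  refine (Finset.card_union_le _ _).trans ?_
  refine (add_le_add (Finset.card_union_le _ _) (Finset.card_union_le _ _)).trans ?_
  have h1 := hc (fun y => (⟨M, y⟩ : Qd t c))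
  have h2 := hc (fun y => (⟨-M, y⟩ : Qd t c))
  have h3 := hc (fun x => (⟨x, M⟩ : Qd t c))
  have h4 := hc (fun x => (⟨x, -M⟩ : Qd t c))
  omega

theorem coord_bound (U : Un t c η) {z : Qd t c} (hz : fd η z) :
    ((mx z : ℕ) : ℝ) ≤ (|(t : ℝ)| + 1) * s1 (η : Qd t c) * Real.sqrt (nm z) := by
  obtain ⟨h1, h2, h3⟩ := U.coord_le hz le_rfl
  have he := U.s1_gt
  have ht := abs_nonneg (t : ℝ)
  have hs := Real.sqrt_nonneg (nm z : ℝ)
  unfold mx
  rcases max_choice z.re.natAbs z.im.natAbs with h | h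
  · rw [h, Nat.cast_natAbs, Int.cast_abs]
    exact h3
  · rw [h, Nat.cast_natAbs, Int.cast_abs, abs_of_nonneg (by exact_mod_cast h1)]
    have h4 : 0 ≤ s1 (η : Qd t c) * Real.sqrt (nm z) := mul_nonneg (by linarith) hs
    nlinarith [mul_nonneg ht h4]

theorem sum_inv_sqrt (U : Un t c η) (R : ℝ) (s : Finset (Qd t c))
    (hs : ∀ z ∈ s, fd η z ∧ (nm z : ℝ) ≤ R) :
    ∑ z ∈ s, 1 / Real.sqrt (nm z) ≤
      12 * ((|(t : ℝ)| + 1) * s1 (η : Qd t c)) ^ 2 * Real.sqrt R := by
  classical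
  set q : ℝ := (|(t : ℝ)| + 1) * s1 (η : Qd t c) with hq
  have hq0 : 0 < q := by
    have := U.s1_gt
    have := abs_nonneg (t : ℝ)
    rw [hq]
    apply mul_pos <;> linarith
  have hmaps : ∀ z ∈ s, mx z ∈ Icc 1 ⌊q * Real.sqrt R⌋₊ := by
    intro z hz
    obtain ⟨h1, h2⟩ := hs z hz
    rw [mem_Icc]
    refine ⟨mx_pos (tp_ne_zero h1.1), Nat.le_floor ?_⟩
    exact (coord_bound U h1).trans (mul_le_mul_of_nonneg_left (Real.sqrt_le_sqrt h2) hq0.le)
  rw [← Finset.sum_fiberwise_of_maps_to hmaps]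
  have h1 : ∀ M ∈ Icc 1 ⌊q * Real.sqrt R⌋₊,
      ∑ z ∈ s.filter (fun z => mx z = M), 1 / Real.sqrt (nm z) ≤ 12 * q := by
    intro M hM
    rw [mem_Icc] at hM
    have hM0 : (0 : ℝ) < M := by exact_mod_cast hM.1
    have h2 : ∀ z ∈ s.filter (fun z => mx z = M), 1 / Real.sqrt (nm z) ≤ q / (M : ℝ) := by
      intro z hz
      rw [mem_filter] at hz
      have h3 := coord_bound U (hs z hz.1).1
      rw [hz.2] at h3
      have h4 : 0 < Real.sqrt (nm z) := Real.sqrt_pos.2 (nm_posR U.disc (hs z hz.1).1.1)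
      rw [div_le_div_iff₀ h4 hM0]
      linarith
    refine (Finset.sum_le_card_nsmul _ _ _ h2).trans ?_
    have h5 : (((s.filter (fun z => mx z = M)).card : ℕ) : ℝ) ≤ 12 * M := by
      exact_mod_cast fiber_card s hM.1
    rw [nsmul_eq_mul]
    calc (((s.filter (fun z => mx z = M)).card : ℕ) : ℝ) * (q / M) ≤ 12 * M * (q / M) :=
          mul_le_mul_of_nonneg_right h5 (by positivity)
      _ = 12 * q := by field_simp
  refine (Finset.sum_le_card_nsmul _ _ _ h1).trans ?_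
  rw [nsmul_eq_mul, Nat.card_Icc]
  have h3 : ((⌊q * Real.sqrt R⌋₊ : ℕ) : ℝ) ≤ q * Real.sqrt R :=
    Nat.floor_le (mul_nonneg hq0.le (Real.sqrt_nonneg _))
  have h4 : ((⌊q * Real.sqrt R⌋₊ + 1 - 1 : ℕ) : ℝ) = (⌊q * Real.sqrt R⌋₊ : ℝ) := by simp
  rw [h4]
  calc (⌊q * Real.sqrt R⌋₊ : ℝ) * (12 * q) ≤ q * Real.sqrt R * (12 * q) :=
        mul_le_mul_of_nonneg_right h3 (by positivity)
    _ = 12 * q ^ 2 * Real.sqrt R := by ring

/-- the constant -/
noncomputable def cve (η : (Qd t c)ˣ) : ℝ := 36 * ((|(t : ℝ)| + 1) * s1 (η : Qd t c)) ^ 2 + 3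

theorem nbr_sum (U : Un t c η) {κ X : ℝ} (T : Finset (Qd t c)) (hT : T ⊆ ball η X) (hκ : 0 < κ)
    (hX : 1 ≤ X) :
    ∑ v ∈ T, 3 * Real.sqrt (X / nm v) ≤ cve η * (κ * X + ((T.card : ℕ) : ℝ) / κ) := by
  classical
  have hX0 : 0 < X := by linarith
  set q : ℝ := ((|(t : ℝ)| + 1) * s1 (η : Qd t c)) ^ 2 with hq
  have hq0 : 0 ≤ q := by rw [hq]; positivity
  rw [← Finset.sum_filter_add_sum_filter_not T (fun v => (nm v : ℝ) ≤ κ ^ 2 * X)]
  have h2 : ∑ v ∈ T.filter (fun v => (nm v : ℝ) ≤ κ ^ 2 * X),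
      3 * Real.sqrt (X / nm v) ≤ 36 * q * (κ * X) := by
    have h3 := sum_inv_sqrt U (κ ^ 2 * X)
      (T.filter (fun v => (nm v : ℝ) ≤ κ ^ 2 * X)) (by
        intro z hz
        rw [mem_filter] at hz
        exact ⟨(U.mem_ball.1 (hT hz.1)).1, hz.2⟩)
    have h4 : ∑ v ∈ T.filter (fun v => (nm v : ℝ) ≤ κ ^ 2 * X),
        3 * Real.sqrt (X / nm v) = 3 * Real.sqrt X *
          ∑ v ∈ T.filter (fun v => (nm v : ℝ) ≤ κ ^ 2 * X),
            1 / Real.sqrt (nm v) := by
      rw [Finset.mul_sum]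
      refine Finset.sum_congr rfl fun v _ => ?_
      rw [Real.sqrt_div hX0.le]
      ring
    rw [h4]
    have h5 : Real.sqrt (κ ^ 2 * X) = κ * Real.sqrt X := by
      rw [Real.sqrt_mul (by positivity), Real.sqrt_sq hκ.le]
    rw [h5, ← hq] at h3
    have h6 : Real.sqrt X * Real.sqrt X = X := Real.mul_self_sqrt hX0.le
    calc 3 * Real.sqrt X * _ ≤ 3 * Real.sqrt X * (12 * q * (κ * Real.sqrt X)) :=
          mul_le_mul_of_nonneg_left h3 (by positivity)
      _ = 36 * q * (κ * (Real.sqrt X * Real.sqrt X)) := by ring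
      _ = 36 * q * (κ * X) := by rw [h6]
  have h3 : ∑ v ∈ T.filter (fun v => ¬ (nm v : ℝ) ≤ κ ^ 2 * X),
      3 * Real.sqrt (X / nm v) ≤ 3 * (((T.card : ℕ) : ℝ) / κ) := by
    have h4 : ∀ v ∈ T.filter (fun v => ¬ (nm v : ℝ) ≤ κ ^ 2 * X),
        3 * Real.sqrt (X / nm v) ≤ 3 / κ := by
      intro v hv
      rw [mem_filter] at hv
      have h5 : κ ^ 2 * X < nm v := not_le.1 hv.2
      have h6 : (0 : ℝ) < nm v := lt_trans (by positivity) h5
      have h7 : Real.sqrt (X / nm v) ≤ 1 / κ := by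
        rw [Real.sqrt_le_left (by positivity), div_pow, one_pow, div_le_div_iff₀ h6 (by positivity)]
        linarith
      calc 3 * Real.sqrt (X / nm v) ≤ 3 * (1 / κ) := by linarith
        _ = 3 / κ := by ring
    refine (Finset.sum_le_card_nsmul _ _ _ h4).trans ?_
    rw [nsmul_eq_mul]
    have h5 : (((T.filter (fun v => ¬ (nm v : ℝ) ≤ κ ^ 2 * X)).card : ℕ) : ℝ) ≤
        ((T.card : ℕ) : ℝ) := by exact_mod_cast Finset.card_filter_le _ _
    calc _ ≤ ((T.card : ℕ) : ℝ) * (3 / κ) :=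
          mul_le_mul_of_nonneg_right h5 (by positivity)
      _ = 3 * (((T.card : ℕ) : ℝ) / κ) := by ring
  have h4 : 0 ≤ ((T.card : ℕ) : ℝ) / κ := by positivity
  have h5 : 0 ≤ κ * X := by positivity
  unfold cve
  rw [← hq]
  nlinarith [mul_nonneg hq0 h4]

theorem cve_pos (η : (Qd t c)ˣ) : 0 < cve η := by
  unfold cve
  positivity

/-- the same for the shifted fundamental domain -/
theorem nbr_sum_shift {κ X : ℝ} (U : Un t c η) (T : Finset (Qd t c))
    (hT : open scoped Classical in T ⊆ (ball η X).image (fun z => (η : Qd t c) * z)) (hκ : 0 < κ)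
    (hX : 1 ≤ X) :
    ∑ v ∈ T, 3 * Real.sqrt (X / nm v) ≤ cve η * (κ * X + ((T.card : ℕ) : ℝ) / κ) := by
  classical
  set T' : Finset (Qd t c) := (ball η X).filter (fun z => (η : Qd t c) * z ∈ T) with hT'
  have hinj : Set.InjOn (fun z => (η : Qd t c) * z) (T' : Set (Qd t c)) := by
    intro a _ b _ hab
    exact mul_cancel U.nsq (tp_ne_zero U.pos) hab
  have himg : T'.image (fun z => (η : Qd t c) * z) = T := by
    ext v
    rw [mem_image]
    constructor
    · rintro ⟨z, hz, rfl⟩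
      exact (mem_filter.1 hz).2
    · intro hv
      have h1 := hT hv
      rw [mem_image] at h1
      obtain ⟨z, hz, rfl⟩ := h1
      exact ⟨z, mem_filter.2 ⟨hz, hv⟩, rfl⟩
  have h1 := nbr_sum U T' (filter_subset _ _) hκ hX
  have h2 : T'.card = T.card := by
    rw [← himg, Finset.card_image_of_injOn hinj]
  rw [h2] at h1
  refine le_trans (le_of_eq ?_) h1
  rw [← himg, Finset.sum_image hinj]
  refine Finset.sum_congr rfl fun z _ => ?_
  rw [nm_mul, Un.nm_eta, one_mul]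

theorem ve (U : Un t c η) : S_VE t c η := by
  classical
  have hc0 := cve_pos η
  refine ⟨3 * cve η, by linarith, fun κ X V hκ _ hX => ?_⟩
  have hX0 : 0 < X := by linarith
  have hsub : (dedge η X).filter (fun e => e.1 ∈ V ∨ e.2 ∈ V) ⊆
      (dedge η X).filter (fun e => e.1 ∈ V) ∪ (dedge η X).filter (fun e => e.2 ∈ V) := by
    intro e he
    rw [mem_filter] at he
    rw [mem_union, mem_filter, mem_filter]
    rcases he.2 with h | h
    · left; exact ⟨he.1, h⟩
    · right; exact ⟨he.1, h⟩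
  have hle : ∀ A : Finset (Qd t c), A ⊆ V →
      cve η * (κ * X + ((A.card : ℕ) : ℝ) / κ) ≤ cve η * (κ * X + ((V.card : ℕ) : ℝ) / κ) := by
    intro A hA
    have h1 : ((A.card : ℕ) : ℝ) ≤ ((V.card : ℕ) : ℝ) := by exact_mod_cast card_le_card hA
    gcongr
  have h1 : (((dedge η X).filter (fun e => e.1 ∈ V)).card : ℝ) ≤
      cve η * (κ * X + ((V.card : ℕ) : ℝ) / κ) := by
    refine le_trans ?_ (hle (V ∩ ball η X) inter_subset_left)
    refine le_trans ?_ (nbr_sum U (V ∩ ball η X) inter_subset_right hκ hX)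
    have h2 : ∀ e ∈ (dedge η X).filter (fun e => e.1 ∈ V), e.1 ∈ V ∩ ball η X := by
      intro e he
      rw [mem_filter, U.mem_dedge] at he
      exact mem_inter.2 ⟨he.2, U.mem_ball.2 ⟨he.1.1, he.1.2.1⟩⟩
    rw [Finset.card_eq_sum_card_fiberwise h2]
    push_cast
    refine Finset.sum_le_sum fun v _ => ?_
    set S := ((dedge η X).filter (fun e => e.1 ∈ V)).filter (fun e => e.1 = v) with hS
    rcases S.eq_empty_or_nonempty with h0 | ⟨e₀, he₀⟩
    · rw [h0, Finset.card_empty, Nat.cast_zero]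
      positivity
    have hS' : ∀ e ∈ S, e.1 = v ∧ fd η e.1 ∧ (nm e.1 : ℝ) ≤ X ∧ tp e.2 ∧ (nm e.2 : ℝ) ≤ X ∧
        dt e.1 e.2 = 1 := by
      intro e he
      rw [hS, mem_filter, mem_filter, U.mem_dedge] at he
      exact ⟨he.2, he.1.1⟩
    have hinj : Set.InjOn (fun e : Qd t c × Qd t c => e.2) (S : Set (Qd t c × Qd t c)) := by
      intro e he f hf hef
      exact Prod.ext ((hS' e he).1.trans (hS' f hf).1.symm) hef
    rw [← Finset.card_image_of_injOn hinj]
    obtain ⟨b1, b2, b3, b4, b5, b6⟩ := hS' e₀ he₀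
    refine nbr_card U.disc 1 (by rw [← b1]; exact (prim_of_dt b6).1) (by rw [← b1]; exact b2.1)
      (by rw [← b1]; exact b3) _ ?_
    intro u hu
    rw [mem_image] at hu
    obtain ⟨e, he, rfl⟩ := hu
    obtain ⟨a1, a2, a3, a4, a5, a6⟩ := hS' e he
    exact ⟨a4, a5, by rw [← a1]; exact a6⟩
  have hfib : ∀ v : Qd t c,
      ((((dedge η X).filter (fun e => e.2 ∈ V)).filter (fun e => e.2 = v)).card : ℝ) ≤
      3 * Real.sqrt (X / nm v) := by
    intro v
    set S := ((dedge η X).filter (fun e => e.2 ∈ V)).filter (fun e => e.2 = v) with hS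
    rcases S.eq_empty_or_nonempty with h0 | ⟨e₀, he₀⟩
    · rw [h0, Finset.card_empty, Nat.cast_zero]
      positivity
    have hS' : ∀ e ∈ S, e.2 = v ∧ fd η e.1 ∧ (nm e.1 : ℝ) ≤ X ∧ tp e.2 ∧ (nm e.2 : ℝ) ≤ X ∧
        dt e.1 e.2 = 1 := by
      intro e he
      rw [hS, mem_filter, mem_filter, U.mem_dedge] at he
      exact ⟨he.2, he.1.1⟩
    have hinj : Set.InjOn (fun e : Qd t c × Qd t c => e.1) (S : Set (Qd t c × Qd t c)) := by
      intro e he f hf hef
      exact Prod.ext hef ((hS' e he).1.trans (hS' f hf).1.symm)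
    rw [← Finset.card_image_of_injOn hinj]
    obtain ⟨b1, b2, b3, b4, b5, b6⟩ := hS' e₀ he₀
    refine nbr_card U.disc (-1) (by rw [← b1]; exact (prim_of_dt b6).2) (by rw [← b1]; exact b4)
      (by rw [← b1]; exact b5) _ ?_
    intro u hu
    rw [mem_image] at hu
    obtain ⟨e, he, rfl⟩ := hu
    obtain ⟨a1, a2, a3, a4, a5, a6⟩ := hS' e he
    refine ⟨a2.1, a3, ?_⟩
    rw [← a1]
    unfold dt at a6 ⊢
    rw [show e.2.re * e.1.im - e.2.im * e.1.re = -(e.1.re * e.2.im - e.1.im * e.2.re) by ring,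
      a6]
  have h2 : (((dedge η X).filter (fun e => e.2 ∈ V)).card : ℝ) ≤
      2 * (cve η * (κ * X + ((V.card : ℕ) : ℝ) / κ)) := by
    have h3 : ∀ e ∈ (dedge η X).filter (fun e => e.2 ∈ V), e.2 ∈ (V ∩ ball η X) ∪
        (V ∩ (ball η X).image (fun z => (η : Qd t c) * z)) := by
      intro e he
      rw [mem_filter] at he
      obtain ⟨he, hV⟩ := he
      unfold dedge at he
      rw [mem_filter, mem_product, mem_union] at he
      rw [mem_union, mem_inter, mem_inter]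
      rcases he.1.2 with h | h
      · left; exact ⟨hV, h⟩
      · right; exact ⟨hV, h⟩
    rw [Finset.card_eq_sum_card_fiberwise h3]
    push_cast
    refine (Finset.sum_le_sum fun v _ => hfib v).trans ?_
    have h4 := Finset.sum_union_inter (s₁ := V ∩ ball η X)
      (s₂ := V ∩ (ball η X).image (fun z => (η : Qd t c) * z))
      (f := fun v => 3 * Real.sqrt (X / nm v))
    have h5 : 0 ≤ ∑ v ∈ (V ∩ ball η X) ∩ (V ∩ (ball η X).image (fun z => (η : Qd t c) * z)),
      3 * Real.sqrt (X / nm v) := sum_nonneg fun v _ => by positivity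
    have h6 := (nbr_sum U (V ∩ ball η X) inter_subset_right hκ hX).trans
      (hle (V ∩ ball η X) inter_subset_left)
    have h7 := (nbr_sum_shift U (V ∩ (ball η X).image (fun z => (η : Qd t c) * z))
      inter_subset_right hκ hX).trans (hle _ inter_subset_left)
    linarith
  have h3 : (((dedge η X).filter (fun e => e.1 ∈ V ∨ e.2 ∈ V)).card : ℝ) ≤
      (((dedge η X).filter (fun e => e.1 ∈ V)).card : ℝ) +
        (((dedge η X).filter (fun e => e.2 ∈ V)).card : ℝ) := by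
    exact_mod_cast (Finset.card_le_card hsub).trans (Finset.card_union_le _ _)
  linarith

end Pool.Agent.W29.GR
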